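import Pool.Agent.MP_13e7a1_an.H82.Spec

/-!
Semilinear integral equation with parameters: inverse function theorem and translation trick.
-/

open scoped ContDiff Topology BoundedContinuousFunction
open Set Metric MeasureTheory Filter

noncomputable section

namespace Pool.Agent.MP_13e7a1_an.H72

open Pool.Agent.MP_13e7a1_an.H82

/-- Local solution of `y = G y + w` with uniform control. -/
theorem exists_inverse {W : Type} [NormedAddCommGroup W] [NormedSpace ℝ W] [CompleteSpace W]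
    (G : W → W) (hG : ContDiff ℝ ∞ G) (y₀ : W) (h0 : G y₀ = 0) (h1 : fderiv ℝ G y₀ = 0) :
    ∃ (σ : W → W) (ρ δ : ℝ), 0 < δ ∧ δ ≤ ρ ∧ ρ ≤ 1 ∧ σ y₀ = y₀ ∧
      HasFDerivAt σ (ContinuousLinearMap.id ℝ W) y₀ ∧
      (∀ w ∈ ball y₀ δ, ContDiffAt ℝ ∞ σ w ∧ σ w ∈ ball y₀ ρ ∧ σ w - G (σ w) = w) ∧
      ∀ y ∈ ball y₀ ρ, σ (y - G y) = y := by
  have hΨ : ContDiff ℝ ∞ fun y => y - G y := contDiff_id.sub hG
  have hd : HasFDerivAt (fun y => y - G y)
      ((ContinuousLinearEquiv.refl ℝ W : W ≃L[ℝ] W) : W →L[ℝ] W) y₀ := by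
    have := (hasFDerivAt_id y₀).sub ((hG.differentiable (by simp)) y₀).hasFDerivAt
    rw [h1, sub_zero] at this
    exact this
  set e := hΨ.contDiffAt.toOpenPartialHomeomorph (fun y => y - G y) hd (by simp) with he
  have hs : y₀ ∈ e.source := hΨ.contDiffAt.mem_toOpenPartialHomeomorph_source hd (by simp)
  have hc : ∀ y, e y = y - G y := fun _ => rfl
  have he0 : e y₀ = y₀ := by rw [hc, h0, sub_zero]
  have ht : y₀ ∈ e.target := he0 ▸ e.map_source hs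
  have hs0 : e.symm y₀ = y₀ := by
    have := e.left_inv hs
    rwa [he0] at this
  have hopen : IsOpen (fderiv ℝ (fun y => y - G y) ⁻¹'
      range ((↑) : (W ≃L[ℝ] W) → W →L[ℝ] W)) :=
    ContinuousLinearEquiv.isOpen.preimage (hΨ.continuous_fderiv (by simp))
  obtain ⟨ρ₀, hρ₀, hρ⟩ := Metric.isOpen_iff.1 (e.open_source.inter hopen) y₀
    ⟨hs, ⟨_, hd.fderiv.symm⟩⟩
  have hρ1 : 0 < min ρ₀ 1 := lt_min hρ₀ one_pos
  have hsub : ball y₀ (min ρ₀ 1) ⊆ ball y₀ ρ₀ := ball_subset_ball (min_le_left _ _)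
  have hn : e.target ∩ e.symm ⁻¹' ball y₀ (min ρ₀ 1) ∈ 𝓝 y₀ :=
    inter_mem (e.open_target.mem_nhds ht)
      ((e.continuousAt_symm ht).preimage_mem_nhds (by rw [hs0]; exact ball_mem_nhds _ hρ1))
  obtain ⟨δ₀, hδ₀, hδ⟩ := Metric.mem_nhds_iff.1 hn
  refine ⟨e.symm, min ρ₀ 1, min δ₀ (min ρ₀ 1), lt_min hδ₀ hρ1, min_le_right _ _, min_le_right _ _,
    hs0, ?_, fun w hw => ?_, fun y hy => e.left_inv (hρ (hsub hy)).1⟩
  · exact e.hasFDerivAt_symm (f' := ContinuousLinearEquiv.refl ℝ W) ht (by rw [hs0]; exact hd)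
  · obtain ⟨h2, h3⟩ := hδ (ball_subset_ball (min_le_left _ _) hw)
    obtain ⟨L, hL⟩ := (hρ (hsub h3)).2
    refine ⟨e.contDiffAt_symm (f₀' := L) h2 ?_ hΨ.contDiffAt, h3, e.right_inv h2⟩
    rw [hL]
    exact ((hΨ.differentiable (by simp)) _).hasFDerivAt

variable {F Q : Type} [NormedAddCommGroup F] [NormedSpace ℝ F]
  [NormedAddCommGroup Q] [NormedSpace ℝ Q]

/-- The linear part of the argument of the Nemytskii operator. -/
def emb : (ℂ × Q × (ℂ →ᵇ F)) →L[ℝ] (ℂ →ᵇ ℂ × Q × F) :=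
  LinearMap.mkContinuous
    { toFun := fun y => BoundedContinuousFunction.ofNormedAddCommGroup
        (fun z => (y.1, y.2.1, y.2.2 z)) (by fun_prop) ‖y‖ fun z => by
          simp only [Prod.norm_def]
          exact max_le_max le_rfl (max_le_max le_rfl (y.2.2.norm_coe_le_norm z))
      map_add' := fun y y' => by ext z <;> simp
      map_smul' := fun c y => by ext z <;> simp } 1 fun y => by
    rw [one_mul]
    refine (BoundedContinuousFunction.norm_le (norm_nonneg y)).2 fun z => ?_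
    change ‖(y.1, y.2.1, y.2.2 z)‖ ≤ _
    simp only [Prod.norm_def]
    exact max_le_max le_rfl (max_le_max le_rfl (y.2.2.norm_coe_le_norm z))

theorem emb_apply (y : ℂ × Q × (ℂ →ᵇ F)) (z : ℂ) : emb y z = (y.1, y.2.1, y.2.2 z) := rfl

theorem exists_cut (r : ℝ) (hr : 0 < r) : ∃ χ : ℂ → ℝ, Continuous χ ∧ (∀ z, ‖χ z‖ ≤ 1) ∧
    (∀ z, ‖z‖ ≤ r → χ z = 1) ∧ ∀ z, r + 1 ≤ ‖z‖ → χ z = 0 := by
  let b : ContDiffBump (0 : ℂ) := ⟨r, r + 1, hr, by linarith⟩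
  refine ⟨b, b.continuous, fun z => ?_, fun z hz => b.one_of_mem_closedBall (by simpa using hz),
    fun z hz => b.zero_of_le_dist (by simpa using hz)⟩
  rw [Real.norm_eq_abs, abs_of_nonneg b.nonneg]
  exact b.le_one

theorem exists_T [FiniteDimensional ℝ F] (h2 : SCauA) (A : F →L[ℝ] F) (χ : ℂ → ℝ)
    (hχ : Continuous χ) (hb : ∀ z, ‖χ z‖ ≤ 1) (h0 : ∀ z, 5 ≤ ‖z‖ → χ z = 0) :
    ∃ T : (ℂ →ᵇ F) →L[ℝ] (ℂ →ᵇ F), ∀ g z, T g z = cT A (fun ζ => χ ζ • g ζ) z := by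
  obtain ⟨C, hC, hbd⟩ := h2.bound F A 5
  have hc : ∀ g : ℂ →ᵇ F, Continuous fun ζ => χ ζ • g ζ := fun g => hχ.smul g.continuous
  have hz : ∀ (g : ℂ →ᵇ F) z, 5 ≤ ‖z‖ → χ z • g z = 0 := fun g z hz => by rw [h0 z hz, zero_smul]
  have hn : ∀ (g : ℂ →ᵇ F) z, ‖χ z • g z‖ ≤ ‖g‖ := fun g z => by
    rw [norm_smul]
    exact (mul_le_of_le_one_left (norm_nonneg _) (hb z)).trans (g.norm_coe_le_norm z)
  have hk : ∀ g : ℂ →ᵇ F, HasCompactSupport fun ζ => χ ζ • g ζ := fun g =>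
    HasCompactSupport.intro (isCompact_closedBall (0 : ℂ) 5) fun z hz' =>
      hz g z (le_of_lt (by simpa using hz'))
  have hi := fun (g : ℂ →ᵇ F) z => h2.integ F A _ (hc g) (hk g) z
  refine ⟨LinearMap.mkContinuous
    { toFun := fun g => BoundedContinuousFunction.ofNormedAddCommGroup
        (cT A fun ζ => χ ζ • g ζ) (hbd _ _ (hc g) (hz g) (hn g)).1 (C * ‖g‖)
        (hbd _ _ (hc g) (hz g) (hn g)).2
      map_add' := fun g g' => ?_
      map_smul' := fun c g => ?_ } C fun g => ?_, fun g z => rfl⟩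
  · ext z
    simp only [BoundedContinuousFunction.coe_ofNormedAddCommGroup, BoundedContinuousFunction.coe_add,
      Pi.add_apply, cT]
    rw [← integral_add (hi g z) (hi g' z)]
    refine integral_congr_ae (Eventually.of_forall fun ζ => ?_)
    simp only [smul_add, map_add]
    abel
  · ext z
    simp only [BoundedContinuousFunction.coe_ofNormedAddCommGroup,
      BoundedContinuousFunction.coe_smul, RingHom.id_apply, cT]
    rw [← integral_smul]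
    refine integral_congr_ae (Eventually.of_forall fun ζ => ?_)
    simp only [map_smul, smul_sub]
    rw [smul_comm (χ _) c, smul_comm (k1 ζ) c, smul_comm (χ _) c, smul_comm (k2 ζ) c]
  · exact (BoundedContinuousFunction.norm_le (mul_nonneg hC (norm_nonneg g))).2
      (hbd _ _ (hc g) (hz g) (hn g)).2

theorem fderiv_zero (Φ : ℂ × Q × F → F) (q₀ : Q) (hΦ : ContDiff ℝ ∞ Φ)
    (h0 : ∀ ζ, Φ (ζ, q₀, 0) = 0)
    (h1 : ∀ ζ, fderiv ℝ (fun y : Q × F => Φ (ζ, y)) (q₀, 0) = 0) (ζ : ℂ) :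
    fderiv ℝ Φ (ζ, q₀, 0) = 0 := by
  have hd := ((hΦ.differentiable (by simp)) (ζ, q₀, 0)).hasFDerivAt
  have ha := (hd.comp ζ (hasFDerivAt_prodMk_left (𝕜 := ℝ) ζ ((q₀, 0) : Q × F))).fderiv
  have hb := (hd.comp ((q₀, 0) : Q × F) (hasFDerivAt_prodMk_right (𝕜 := ℝ) ζ _)).fderiv
  have e1 : (Φ ∘ fun e : ℂ => (e, ((q₀, 0) : Q × F))) = fun _ => 0 := funext fun ζ => h0 ζ
  rw [e1, fderiv_fun_const] at ha
  have e2 : (Φ ∘ fun e : Q × F => (ζ, e)) = fun y : Q × F => Φ (ζ, y) := rfl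
  rw [e2, h1] at hb
  ext1
  · exact ha.symm
  · exact hb.symm

theorem semi (h1 : SNemy) (h2 : SCauA) : SSemi := by
  intro F Q _ _ _ _ _ _ A Φ q₀ hΦ hs h0 hd
  have : CompleteSpace F := FiniteDimensional.complete ℝ F
  have : CompleteSpace Q := FiniteDimensional.complete ℝ Q
  obtain ⟨χ, hχ, hχb, hχ1, hχ0⟩ := exists_cut 4 (by norm_num)
  obtain ⟨ψ, hψ, hψb, hψ1, hψ0⟩ := exists_cut 5 (by norm_num)
  obtain ⟨T, hT⟩ := exists_T h2 A χ hχ hχb fun z hz => hχ0 z (by linarith)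
  obtain ⟨N, hN, hNa, hNd⟩ := h1 (ℂ × Q × F) F Φ hΦ
  let c₀ : ℂ →ᵇ ℂ × Q × F := BoundedContinuousFunction.ofNormedAddCommGroup
    (fun z => (ψ z • z, 0, 0)) (by fun_prop) 6 fun z => by
      simp only [Prod.norm_def, norm_zero, max_self, norm_smul]
      refine max_le ?_ (by norm_num)
      by_cases hz : ‖z‖ ≤ 6
      · exact (mul_le_of_le_one_left (norm_nonneg _) (hψb z)).trans hz
      · rw [hψ0 z (by linarith), norm_zero, zero_mul]; norm_num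
  have hc₀ : ∀ (y : ℂ × Q × (ℂ →ᵇ F)) z, (c₀ + emb y) z = (ψ z • z + y.1, y.2.1, y.2.2 z) :=
    fun y z => by
      simp only [BoundedContinuousFunction.coe_add, Pi.add_apply, emb_apply, c₀,
        BoundedContinuousFunction.coe_ofNormedAddCommGroup, Prod.mk_add_mk, zero_add]
  let ι : (ℂ →ᵇ F) →L[ℝ] ℂ × Q × (ℂ →ᵇ F) :=
    (ContinuousLinearMap.inr ℝ ℂ _).comp (ContinuousLinearMap.inr ℝ Q _)
  have hι : ∀ g, ι g = (0, 0, g) := fun _ => rfl
  let G : ℂ × Q × (ℂ →ᵇ F) → ℂ × Q × (ℂ →ᵇ F) := fun y => ι (T (N (c₀ + emb y)))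
  have hE : ContDiff ℝ ∞ fun y : ℂ × Q × (ℂ →ᵇ F) => c₀ + emb y :=
    contDiff_const.add (emb (F := F) (Q := Q)).contDiff
  have hG : ContDiff ℝ ∞ G := ι.contDiff.comp (T.contDiff.comp (hN.comp hE))
  have hG0 : G (0, q₀, 0) = 0 := by
    have : N (c₀ + emb ((0, q₀, 0) : ℂ × Q × (ℂ →ᵇ F))) = 0 := by
      ext z
      rw [hNa, hc₀]
      exact h0 _
    simp only [G, this, map_zero]
  have hG1 : fderiv ℝ G (0, q₀, 0) = 0 := by
    have h3 : fderiv ℝ N (c₀ + emb ((0, q₀, 0) : ℂ × Q × (ℂ →ᵇ F))) = 0 := by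
      ext h z
      rw [hNd, hc₀]
      have := fderiv_zero Φ q₀ hΦ h0 hd (ψ z • z + 0)
      simp only [BoundedContinuousFunction.coe_zero, Pi.zero_apply, this,
        zero_apply]
    have h4 := ((hN.differentiable (by simp))
      (c₀ + emb ((0, q₀, 0) : ℂ × Q × (ℂ →ᵇ F)))).hasFDerivAt
    rw [h3] at h4
    have h5 := (ι.comp T).hasFDerivAt.comp ((0, q₀, 0) : ℂ × Q × (ℂ →ᵇ F))
      (h4.comp ((0, q₀, 0) : ℂ × Q × (ℂ →ᵇ F)) ((hE.differentiable (by simp)) _).hasFDerivAt)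
    have h6 := h5.fderiv
    simp only [ContinuousLinearMap.zero_comp, ContinuousLinearMap.comp_zero] at h6
    exact h6
  have hGa : ∀ (y : ℂ × Q × (ℂ →ᵇ F)), ‖y.1‖ ≤ 1 → ∀ z, (G y).2.2 z =
      cT A (fun ζ => Φ (ζ + y.1, y.2.1, y.2.2 ζ)) z := fun y hy z => by
    change T (N (c₀ + emb y)) z = _
    rw [hT]
    congr 1
    funext ζ
    rw [hNa, hc₀]
    have h3 : ‖ζ‖ ≤ ‖ζ + y.1‖ + 1 := by
      have := norm_sub_le (ζ + y.1) y.1
      rw [add_sub_cancel_right] at this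
      linarith
    by_cases h4 : ‖ζ‖ ≤ 4
    · rw [hχ1 ζ h4, hψ1 ζ (by linarith), one_smul, one_smul]
    by_cases h5 : ‖ζ‖ ≤ 5
    · rw [hψ1 ζ h5, one_smul, hs _ _ _ (by linarith), smul_zero]
    · rw [hχ0 ζ (by linarith), zero_smul, hs _ _ _ (by linarith)]
  obtain ⟨σ, ρ, δ, hδ, hδρ, hρ1, hσ0, hσd, hσ, hσi⟩ := exists_inverse G hG _ hG0 hG1
  have hmem : ∀ (r : ℝ) (a : ℂ) (q : Q) (g : ℂ →ᵇ F),
      ((a, q, g) : ℂ × Q × (ℂ →ᵇ F)) ∈ ball (0, q₀, 0) r ↔ ‖a‖ < r ∧ q ∈ ball q₀ r ∧ ‖g‖ < r :=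
    fun r a q g => by simp only [mem_ball, Prod.dist_eq, max_lt_iff, dist_zero_right]
  have hq : ∀ q ∈ ball q₀ δ, ((0, q, 0) : ℂ × Q × (ℂ →ᵇ F)) ∈ ball (0, q₀, 0) δ := fun q h =>
    (hmem _ _ _ _).2 ⟨by simpa using hδ, h, by simpa using hδ⟩
  have hsol : ∀ q ∈ ball q₀ δ, ‖(σ (0, q, 0)).2.2‖ < ρ ∧ ∀ z, (σ (0, q, 0)).2.2 z =
      cT A (fun ζ => Φ (ζ, q, (σ (0, q, 0)).2.2 ζ)) z := fun q h => by
    obtain ⟨-, h3, h4⟩ := hσ _ (hq q h)
    have e1 : (σ (0, q, 0)).1 = 0 := by simpa [G, hι] using congrArg Prod.fst h4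
    have e2 : (σ (0, q, 0)).2.1 = q := by simpa [G, hι] using congrArg (fun y => y.2.1) h4
    have e3 : (σ (0, q, 0)).2.2 = (G (σ (0, q, 0))).2.2 :=
      sub_eq_zero.1 (congrArg (fun y => y.2.2) h4)
    refine ⟨((hmem ρ _ _ _).1 h3).2.2, fun z => ?_⟩
    have h5 := hGa (σ (0, q, 0)) (by rw [e1]; simp) z
    rw [← e3, e1, e2] at h5
    simpa only [add_zero] using h5
  have htr : ∀ q ∈ ball q₀ δ, ∀ a : ℂ, ‖a‖ < δ → ∀ z,
      (σ (0, q, 0)).2.2 (z + a) = (σ (a, q, 0)).2.2 z := fun q h a ha z => by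
    obtain ⟨h3, h4⟩ := hsol q h
    let g : ℂ →ᵇ F := (σ (0, q, 0)).2.2.compContinuous ⟨fun z => z + a, by fun_prop⟩
    have hg : ∀ z, g z = (σ (0, q, 0)).2.2 (z + a) := fun _ => rfl
    have h5 := hσi (a, q, g) ((hmem _ _ _ _).2 ⟨by linarith, ball_subset_ball hδρ h,
      (BoundedContinuousFunction.norm_compContinuous_le _ _).trans_lt h3⟩)
    have h6 : ((a, q, g) : ℂ × Q × (ℂ →ᵇ F)) - G (a, q, g) = (a, q, 0) := by
      refine Prod.ext (by simp [G, hι]) (Prod.ext (by simp [G, hι]) ?_)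
      ext w
      change g w - (G (a, q, g)).2.2 w = 0
      rw [hGa _ (by simp only; linarith), hg, h4, sub_eq_zero]
      simp only [cT, hg, show ∀ ζ : ℂ, w - ζ + a = w + a - ζ from fun ζ => by ring]
    rw [h6] at h5
    rw [h5, hg]
  have hin : ContDiff ℝ ∞ fun q : Q => ((0, q, 0) : ℂ × Q × (ℂ →ᵇ F)) := by fun_prop
  refine ⟨δ, hδ, fun p => (σ (0, p.1, 0)).2.2 p.2, ?_, fun q h z => (hsol q h).2 z,
    fun γ hγ => ?_, fun z => ?_⟩
  · rintro ⟨q, z⟩ ⟨h, -⟩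
    refine ContDiffAt.contDiffWithinAt ?_
    have h3 : ContDiffAt ℝ ∞ (fun p : Q × ℂ => σ (p.2 - z, p.1, 0)) (q, z) := by
      refine ContDiffAt.comp (q, z) (g := σ) ?_ (by fun_prop)
      rw [sub_self]
      exact (hσ _ (hq q h)).1
    have h4 := (BoundedContinuousFunction.evalCLM ℝ z).contDiff.contDiffAt.comp (q, z) h3.snd.snd
    refine h4.congr_of_eventuallyEq ?_
    have h5 : ∀ᶠ p : Q × ℂ in 𝓝 (q, z), p.1 ∈ ball q₀ δ :=
      continuous_fst.continuousAt.preimage_mem_nhds (isOpen_ball.mem_nhds h)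
    have h6 : ∀ᶠ p : Q × ℂ in 𝓝 (q, z), p.2 ∈ ball z δ :=
      continuous_snd.continuousAt.preimage_mem_nhds (ball_mem_nhds z hδ)
    filter_upwards [h5, h6] with p h7 h8
    have := htr p.1 h7 (p.2 - z) (by simpa [dist_eq_norm] using h8) z
    rw [add_sub_cancel] at this
    exact this
  · have h3 : ContinuousAt (fun q : Q => ‖(σ (0, q, 0)).2.2‖) q₀ :=
      (ContinuousAt.comp (g := σ) (f := fun q : Q => ((0, q, 0) : ℂ × Q × (ℂ →ᵇ F)))
        hσd.continuousAt hin.continuous.continuousAt).snd.snd.norm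
    have h4 := h3.eventually (gt_mem_nhds (show ‖(σ (0, q₀, 0)).2.2‖ < γ by
      rw [hσ0]; simpa using hγ))
    filter_upwards [h4] with q h5 z
    exact (BoundedContinuousFunction.norm_coe_le_norm _ z).trans h5.le
  · have h3 : HasFDerivAt (fun q : Q => ((0, q, 0) : ℂ × Q × (ℂ →ᵇ F)))
        ((0 : Q →L[ℝ] ℂ).prod ((ContinuousLinearMap.id ℝ Q).prod 0)) q₀ :=
      (hasFDerivAt_const _ _).prodMk ((hasFDerivAt_id q₀).prodMk (hasFDerivAt_const _ _))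
    have h4 := (BoundedContinuousFunction.evalCLM ℝ z).hasFDerivAt.comp q₀
      (HasFDerivAt.comp q₀ (g := σ) hσd h3).snd.snd
    refine h4.congr_fderiv ?_
    ext v
    simp

end Pool.Agent.MP_13e7a1_an.H72
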